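import Mathlib
import Pool.Agent.Helper265.HgK
import Pool.Agent.U547.SP.Main

set_option autoImplicit false
open Complex Set Filter Metric Topology MeasureTheory
open scoped ENNReal

namespace Pool.Agent.Results.MP_d321f7_an.NotNecessary

/-- `φ` is a conformal map of `Ω` onto the open unit disc. -/
def IsConformalOntoDisc (φ : ℂ → ℂ) (Ω : Set ℂ) : Prop :=
  DifferentiableOn ℂ φ Ω ∧ BijOn φ Ω (ball 0 1) ∧ ∀ z ∈ Ω, deriv φ z ≠ 0

/-- `W : (0, 1] → (0, ∞)` is nondecreasing, hence bounded by `W 1`, and `W t ↓ 0` as `t ↓ 0`. -/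
structure IsProfile (W : ℝ → ℝ) : Prop where
  pos : ∀ t ∈ Ioc (0 : ℝ) 1, 0 < W t
  mono : MonotoneOn W (Ioc 0 1)
  lim : Tendsto W (𝓝[>] 0) (𝓝 0)

/-- `log log (1 / W t)` is (Lebesgue) integrable over `(0, a)` for some `a ∈ (0, 1]` with
`W a < 1`: the log-log integral converges. -/
def LogLogConverges (W : ℝ → ℝ) : Prop :=
  ∃ a ∈ Ioc (0 : ℝ) 1, W a < 1 ∧
    IntegrableOn (fun t => Real.log (Real.log (1 / W t))) (Ioo 0 a)

/-- The inner boundary: the boundary points of `Ω` in the interior of the closure of `Ω`. -/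
def innerBoundary (Ω : Set ℂ) : Set ℂ := frontier Ω ∩ interior (closure Ω)

/-- The measure `w dx dy` on `Ω`, with `w z = W (1 - ‖φ z‖)`. -/
noncomputable def weighted (Ω : Set ℂ) (φ : ℂ → ℂ) (W : ℝ → ℝ) : Measure ℂ :=
  (volume.restrict Ω).withDensity (fun z => ENNReal.ofReal (W (1 - ‖φ z‖)))

/-- The closure of the polynomials in `L^p(μ)`. -/
def Hp (μ : Measure ℂ) (p : ℝ≥0∞) [Fact (1 ≤ p)] : Set (Lp ℂ p μ) :=
  closure {F | ∃ P : Polynomial ℂ, (F : ℂ → ℂ) =ᵐ[μ] fun z => P.eval z}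

/-- The elements of `L^p(μ)` that are analytic in `Ω`. -/
def Lpa (Ω : Set ℂ) (μ : Measure ℂ) (p : ℝ≥0∞) : Set (Lp ℂ p μ) :=
  {F | ∃ f : ℂ → ℂ, DifferentiableOn ℂ f Ω ∧ (F : ℂ → ℂ) =ᵐ[μ] f}

/-- Everything the problem asks of a counterexample `Ω`, `φ`, for the profile `W`, and more: `Ω`
is a bounded simply connected domain (star shaped about `0`, of closure the closed unit disc, and
containing the part `re z > -1/2` of the open unit disc) with nonempty inner boundary, `φ` is a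
conformal map of `Ω` onto the open unit disc with `φ 0 = 0`, and the polynomials are complete in
`L^p_a` for every `p ∈ [1, ∞)`. -/
def CompleteFor (W : ℝ → ℝ) (Ω : Set ℂ) (φ : ℂ → ℂ) : Prop :=
  IsOpen Ω ∧ IsSimplyConnected Ω ∧ Bornology.IsBounded Ω ∧ IsConformalOntoDisc φ Ω ∧ φ 0 = 0 ∧
  StarConvex ℝ 0 Ω ∧ closure Ω = closedBall 0 1 ∧ {z ∈ ball (0 : ℂ) 1 | -1 / 2 < z.re} ⊆ Ω ∧
  (innerBoundary Ω).Nonempty ∧
  ∀ (p : ℝ≥0∞) [Fact (1 ≤ p)], p ≠ ∞ → Hp (weighted Ω φ W) p = Lpa Ω (weighted Ω φ W) p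

open Pool.Agent.Helper265
open Pool.Agent.U547.SP

theorem weight_low {Ω : Set ℂ} {φ : ℂ → ℂ} (h : IsConformalOntoDisc φ Ω)
    {W : ℝ → ℝ} (hpos : ∀ t ∈ Ioc (0 : ℝ) 1, 0 < W t) (hmono : MonotoneOn W (Ioc 0 1))
    (K : Set ℂ) (hK : K ⊆ Ω) (hKc : IsCompact K) :
    ∃ c : ℝ≥0∞, 0 < c ∧ ∀ z ∈ K, c ≤ ENNReal.ofReal (W (1 - ‖φ z‖)) := by
  rcases K.eq_empty_or_nonempty with rfl | hne
  · exact ⟨1, one_pos, by simp⟩
  obtain ⟨z0, hz0, hmax⟩ := hKc.exists_isMaxOn hne ((h.1.continuousOn.mono hK).norm)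
  have h1 : ‖φ z0‖ < 1 := by simpa using h.2.1.mapsTo (hK hz0)
  refine ⟨ENNReal.ofReal (W (1 - ‖φ z0‖)), ?_, fun z hz => ?_⟩
  · rw [ENNReal.ofReal_pos]
    exact hpos _ ⟨by linarith, by linarith [norm_nonneg (φ z0)]⟩
  · apply ENNReal.ofReal_le_ofReal
    have h2 : ‖φ z‖ ≤ ‖φ z0‖ := hmax hz
    exact hmono ⟨by linarith, by linarith [norm_nonneg (φ z0)]⟩
      ⟨by linarith, by linarith [norm_nonneg (φ z)]⟩ (by linarith)

/-- For every positive nondecreasing `W`. -/
theorem exists_complete (W : ℝ → ℝ) (hpos : ∀ t ∈ Ioc (0 : ℝ) 1, 0 < W t)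
    (hmono : MonotoneOn W (Ioc 0 1)) : ∃ (Ω : Set ℂ) (φ : ℂ → ℂ), CompleteFor W Ω φ := by
  classical
  let M : ℕ → Set ℂ → ℝ := fun n G => if h : ∃ M, Stage W n G M then h.choose else 0
  have hM : ∀ n G, Hg.Good G → Stage W n G (M n G) := by
    intro n G hG
    have h := exists_stage hpos hmono n hG
    simp only [M, dif_pos h]
    exact h.choose_spec
  let c : ℕ → Set ℂ → ℝ := fun n G => min (1 / 1000) (1 / (((n : ℝ) + 1) * (1 + M n G) ^ n))
  obtain ⟨G, hG, -, hvol, hcore, hdense, z0, hz0, hz0'⟩ := exists_domain c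
    (fun n G hG => by
      have h1 := (hM n G hG).1
      exact lt_min (by norm_num) (by positivity))
    (fun n G => min_le_left _ _)
  set Ω : Set ℂ := ⋃ m, G m with hΩ
  have hO : IsOpen Ω := isOpen_iUnion fun n => (hG n).op
  have hOm : MeasurableSet Ω := hO.measurableSet
  have hsub : Ω ⊆ ball 0 1 := iUnion_subset fun n => (hG n).sub
  have h0 : (0 : ℂ) ∈ Ω := mem_iUnion.2 ⟨0, good_zero (hG 0)⟩
  have hstar : ∀ z ∈ Ω, ∀ c : ℝ, 0 < c → c ≤ 1 → (c : ℂ) * z ∈ Ω := by
    intro z hz c hc0 hc1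
    obtain ⟨m, hm⟩ := mem_iUnion.1 hz
    exact mem_iUnion.2 ⟨m, good_star (hG m) z hm c hc0 hc1⟩
  have hsc : IsSimplyConnected Ω := star_sc h0 hstar
  obtain ⟨φ, h1, h2, h3, h4⟩ :=
    Pool.Agent.Helper202.Riemann.riemann hO hsc (ne_univ_of_ball hsub) h0
  have hφ : IsConformalOntoDisc φ Ω := ⟨h1, h2, h3⟩
  have hφb : ∀ z ∈ Ω, ‖φ z‖ < 1 := fun z hz => by simpa using h2.mapsTo hz
  have hwm := w_meas hO h1.continuousOn hφb hpos hmono
  have hcl : closure Ω = closedBall 0 1 := by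
    apply Subset.antisymm
    · exact closure_minimal (hsub.trans ball_subset_closedBall) isClosed_closedBall
    · rw [← closure_ball (0 : ℂ) one_ne_zero]
      exact closure_minimal hdense isClosed_closure
  refine ⟨Ω, φ, hO, hsc, isBounded_ball.subset hsub, hφ, h4, ?_, hcl, ?_, ?_, ?_⟩
  · intro y hy a b ha hb hab
    rw [smul_zero, zero_add, Complex.real_smul]
    rcases hb.eq_or_lt with h | h
    · rw [← h]; simpa using h0
    · exact hstar y hy b h (by linarith)
  · intro z hz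
    exact mem_iUnion.2 ⟨0, hcore hz⟩
  · refine ⟨z0, ?_, ?_⟩
    · rw [hO.frontier_eq]
      exact ⟨hdense hz0, hz0'⟩
    · exact (interior_maximal hdense isOpen_ball) hz0
  intro p _ hp
  have hp1 : (1 : ℝ≥0∞) ≤ p := Fact.out
  have hp0 : p ≠ 0 := (lt_of_lt_of_le one_pos hp1).ne'
  set q : ℝ := p.toReal with hq
  have hq1 : 1 ≤ q := by
    have := (ENNReal.toReal_le_toReal (by simp) hp).2 hp1
    simpa using this
  have hq0 : 0 < q := by linarith
  set w : ℂ → ℝ≥0∞ := fun z => ENNReal.ofReal (W (1 - ‖φ z‖)) with hw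
  have hwf : ∀ z ∈ Ω, w z ≠ ∞ := fun z _ => ENNReal.ofReal_ne_top
  have hclosed : IsClosed (Lpa Ω (weighted Ω φ W) p) :=
    Hg.isClosed_Lpa hO hwm hwf (weight_low hφ hpos hmono) p hp
  have hwfin : ∫⁻ z in Ω, w z ≠ ∞ := by
    refine ne_top_of_le_ne_top (b := ENNReal.ofReal (W 1) * volume Ω) (ENNReal.mul_ne_top
      ENNReal.ofReal_ne_top ((measure_mono hsub).trans_lt measure_ball_lt_top).ne) ?_
    rw [← setLIntegral_const]
    refine setLIntegral_mono' hOm fun z hz => ?_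
    apply ENNReal.ofReal_le_ofReal
    exact hmono ⟨by linarith [hφb z hz], by linarith [norm_nonneg (φ z)]⟩ ⟨one_pos, le_rfl⟩
      (by linarith [norm_nonneg (φ z)])
  have hnorm : ∀ h : ℂ → ℂ, AEMeasurable h (volume.restrict Ω) →
      eLpNorm h p (weighted Ω φ W) = (∫⁻ z in Ω, ‖h z‖ₑ ^ q * w z) ^ (1 / q) := by
    intro h hh
    rw [eLpNorm_eq_lintegral_rpow_enorm_toReal hp0 hp]
    congr 1
    show ∫⁻ z, ‖h z‖ₑ ^ q ∂((volume.restrict Ω).withDensity w) = _
    rw [lintegral_withDensity_eq_lintegral_mul₀ hwm (hh.enorm.pow_const q)]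
    simp only [Pi.mul_apply, mul_comm]
  have hac : weighted Ω φ W ≪ volume.restrict Ω := withDensity_absolutelyContinuous _ _
  have hpm : ∀ P : Polynomial ℂ, AEMeasurable (fun z : ℂ => P.eval z) (volume.restrict Ω) :=
    fun P => (Polynomial.continuous P).measurable.aemeasurable
  have hda : ∀ f : ℂ → ℂ, DifferentiableOn ℂ f Ω → AEMeasurable f (volume.restrict Ω) :=
    fun f hf => hf.continuousOn.aemeasurable hO.measurableSet
  apply Subset.antisymm
  · apply closure_minimal _ hclosed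
    rintro F ⟨P, hP⟩
    exact ⟨_, (Polynomial.differentiable P).differentiableOn, hP⟩
  · rintro F ⟨f, hf, hFf⟩
    have hfin : ∫⁻ z in Ω, ‖f z‖ₑ ^ q * w z ≠ ∞ := by
      have e1 := (Lp.eLpNorm_lt_top F)
      rw [eLpNorm_congr_ae hFf, hnorm f (hda f hf)] at e1
      intro htop
      rw [htop, ENNReal.top_rpow_of_pos (by positivity)] at e1
      exact lt_irrefl _ e1
    rw [Hp, EMetric.mem_closure_iff]
    intro ε hε
    obtain ⟨P, hP⟩ := approx_poly (M := fun n => M n (G n)) hmono hG (fun n => hM n _ (hG n))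
      (fun n => (hvol n).trans (ENNReal.ofReal_le_ofReal
        (mul_le_mul_of_nonneg_left (min_le_right _ _) (by norm_num))))
      h1 h2.mapsTo h4 (phi_radial hO hstar h1 h2 h3 h0 h4) hwm hq1 hf hfin
      (ENNReal.rpow_pos_of_nonneg hε hq0.le)
    have hroot : ∀ x : ℝ≥0∞, x < ε ^ q → x ^ (1 / q) < ε := by
      intro x hx
      have := ENNReal.rpow_lt_rpow hx (show (0 : ℝ) < 1 / q by positivity)
      rwa [← ENNReal.rpow_mul, mul_one_div_cancel hq0.ne', ENNReal.rpow_one] at this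
    have hPmem : MemLp (fun z : ℂ => P.eval z) p (weighted Ω φ W) := by
      have hfm : IsFiniteMeasure (weighted Ω φ W) := isFiniteMeasure_withDensity hwfin
      obtain ⟨B, hB⟩ := (isCompact_closedBall (0 : ℂ) 1).exists_bound_of_continuousOn
        (Polynomial.continuous P).continuousOn
      refine MemLp.of_bound ((hpm P).mono_ac hac).aestronglyMeasurable B ?_
      apply hac.ae_le
      filter_upwards [ae_restrict_mem hO.measurableSet] with z hz
      exact hB z (ball_subset_closedBall (hsub hz))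
    refine ⟨hPmem.toLp _, ⟨P, hPmem.coeFn_toLp⟩, ?_⟩
    rw [Lp.edist_def]
    have e1 : eLpNorm (F - hPmem.toLp _ : ℂ → ℂ) p (weighted Ω φ W)
        = eLpNorm (fun z => f z - P.eval z) p (weighted Ω φ W) := by
      apply eLpNorm_congr_ae
      filter_upwards [hFf, hPmem.coeFn_toLp] with z hz1 hz2
      simp only [Pi.sub_apply]
      rw [hz1, hz2]
    have m1 : AEMeasurable (fun z => f z - P.eval z) (volume.restrict Ω) := (hda f hf).sub (hpm P)
    rw [e1, hnorm _ m1]
    exact hroot _ hP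

/-- the profile `W t = t` -/
theorem profile_id : IsProfile (fun t => t) ∧ LogLogConverges (fun t => t) := by
  refine ⟨⟨fun t ht => ht.1, fun a _ b _ hab => hab, tendsto_nhdsWithin_of_tendsto_nhds tendsto_id⟩,
    1 / 2, ⟨by norm_num, by norm_num⟩, by norm_num, ?_⟩
  have hlog : IntegrableOn Real.log (Ioo 0 (1 / 2 : ℝ)) := by
    have h : IntervalIntegrable Real.log volume 0 (1 / 2 : ℝ) :=
      intervalIntegral.intervalIntegrable_log'
    rw [intervalIntegrable_iff_integrableOn_Ioo_of_le (by norm_num)] at h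
    exact h
  have hg : IntegrableOn (fun t => ‖Real.log t‖ + 1) (Ioo 0 (1 / 2 : ℝ)) :=
    hlog.norm.add (integrableOn_const (by simp))
  refine Integrable.mono' hg ?_ ?_
  · apply Measurable.aestronglyMeasurable
    fun_prop
  · rw [ae_restrict_iff' measurableSet_Ioo]
    refine Eventually.of_forall fun t ht => ?_
    obtain ⟨ht0, ht1⟩ := ht
    have h1 : Real.log (1 / t) = -Real.log t := by rw [one_div, Real.log_inv]
    have h2 : Real.log 2 ≤ Real.log (1 / t) := by
      apply Real.log_le_log (by norm_num)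
      rw [le_div_iff₀ ht0]
      linarith
    have h3 := Real.log_two_gt_d9
    set y : ℝ := Real.log (1 / t) with hy
    have hy0 : 0 < y := by linarith
    have h4 : Real.log y ≤ y - 1 := Real.log_le_sub_one_of_pos hy0
    have h5 : -Real.log y ≤ 1 := by
      have h6 := Real.log_le_sub_one_of_pos (inv_pos.2 hy0)
      rw [Real.log_inv] at h6
      have h7 : y⁻¹ ≤ 2 := by
        rw [inv_le_comm₀ hy0 (by norm_num)]
        linarith
      linarith
    have h8 : y ≤ ‖Real.log t‖ := by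
      rw [h1]
      exact neg_le_abs _
    rw [Real.norm_eq_abs, abs_le]
    constructor
    · linarith [norm_nonneg (Real.log t)]
    · linarith

/-- **The negative answer.** For every profile `W` (whatever its log-log integral) there is a
bounded simply connected domain with nonempty inner boundary and a conformal map for which the
polynomials are complete for all `p`; in particular the statement of Q1 is false. -/
theorem result :
    (∀ W : ℝ → ℝ, IsProfile W → ∃ (Ω : Set ℂ) (φ : ℂ → ℂ), CompleteFor W Ω φ) ∧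
    (IsProfile (fun t => t) ∧ LogLogConverges (fun t => t) ∧
      ∃ (Ω : Set ℂ) (φ : ℂ → ℂ), CompleteFor (fun t => t) Ω φ) := by
  refine ⟨fun W hW => exists_complete W hW.pos hW.mono, ?_⟩
  obtain ⟨h1, h2⟩ := profile_id
  exact ⟨h1, h2, exists_complete _ h1.pos h1.mono⟩

end Pool.Agent.Results.MP_d321f7_an.NotNecessary
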